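import Mathlib
import Pool.Agent.Y701.ZT.Root

/-!
# Over the splitting field of `P(X_n, s)` the `p`-th roots of unity generate all `p ^ n`-th ones

For every `ℤ_p`-tower of curves `X_n` over a finite field of characteristic `p` with finite ramification
locus and all large `n`, the splitting field `ℚ_{p,n}` of `P(X_n, s)` over `ℚ_p` satisfies
`ℚ_{p,n}(μ_{p ^ n}) = ℚ_{p,n}(μ_p)` (`= ℚ_{p,n}(μ_4)` if `p = 2`). In particular `[ℚ_{p,n} : ℚ_p]` and
the ramification index are divisible by `p ^ (n - 1)` (by `2 ^ (n - 2)` if `p = 2`) and tend to infinity.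
-/

open PowerSeries

namespace Pool.Agent.Results.MP_9f6d45_nt.RootsOfUnitySharp

open Pool.Agent.H707R3

open scoped PowerSeries.WithPiTopology in
/-- The zeta function `Z(X, s) = ∏ (1 - s ^ deg x)⁻¹`, product over the closed points `x` of the curve
`X` with function field `K` over `k`. -/
noncomputable def zeta (p : ℕ) [Fact p.Prime] (k K : Type) [Field k] [Field K] [Algebra k K] :
    PowerSeries ℂ_[p] :=
  ∏' x : Place k K, (1 - X ^ x.deg)⁻¹

/-- `A` is the multiset of reciprocal roots of `P(X, s) = Z(X, s) (1 - s) (1 - q s)`, where `q` is the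
number of elements of `k`: `P(X, s) = ∏ (1 - α s)`, product over `α ∈ A`. -/
def IsRecipRoots (p : ℕ) [Fact p.Prime] (k K : Type) [Field k] [Field K] [Algebra k K]
    (A : Multiset ℂ_[p]) : Prop :=
  zeta p k K * (1 - X) * (1 - C (Nat.card k : ℂ_[p]) * X) = (A.map fun α => 1 - C α * X).prod

/-- For every `ℤ_p`-tower there is `N` such that for `n ≥ N` the zeta function of the layer `X_n` (the
intermediate field `K` with `[K : F] = p ^ n`) has reciprocal roots as above, and the field `ℚ_{p,n}`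
they generate satisfies `ℚ_{p,n}(μ_{p ^ n}) = ℚ_{p,n}(μ_q)` with `q = p` (`q = 4` if `p = 2`); moreover
`[ℚ_{p,n} : ℚ_p]` is finite and `p ^ n` divides `q [ℚ_{p,n} : ℚ_p]` and `q` times the (finite)
ramification index of `ℚ_{p,n}` over `ℚ_p`. -/
theorem result (p : ℕ) [Fact p.Prime] (k F E : Type) [Field k] [Finite k] [CharP k p]
    [Field F] [Algebra k F] [Field E] [Algebra F E] [Algebra k E] [IsScalarTower k F E]
    (h : IsZpTower k F E p) :
    ∃ N : ℕ, ∀ n, N ≤ n → ∀ K : IntermediateField F E, Module.finrank F K = p ^ n →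
      (∃ A, IsRecipRoots p k K A) ∧
        ∀ A, IsRecipRoots p k K A →
          IntermediateField.adjoin (IntermediateField.adjoin ℚ_[p] {α : ℂ_[p] | α ∈ A})
              {w : ℂ_[p] | w ^ p ^ n = 1} =
            IntermediateField.adjoin (IntermediateField.adjoin ℚ_[p] {α : ℂ_[p] | α ∈ A})
              {w : ℂ_[p] | w ^ (if p = 2 then 4 else p) = 1} ∧
          FiniteDimensional ℚ_[p] (IntermediateField.adjoin ℚ_[p] {α : ℂ_[p] | α ∈ A}) ∧
          p ^ n ∣ (if p = 2 then 4 else p) *
            Module.finrank ℚ_[p] (IntermediateField.adjoin ℚ_[p] {α : ℂ_[p] | α ∈ A}) ∧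
          0 < ramIdx (IntermediateField.adjoin ℚ_[p] {α : ℂ_[p] | α ∈ A}) ∧
          p ^ n ∣ (if p = 2 then 4 else p) *
            ramIdx (IntermediateField.adjoin ℚ_[p] {α : ℂ_[p] | α ∈ A}) := by
  obtain ⟨N, hN⟩ := Y701.ZT.root_final h
  obtain ⟨N', hN'⟩ := Y701.ZT.local_final h
  refine ⟨max N N', fun n hn K hK => ⟨H387R3.ZT.exists_roots h K n hK, fun A hA => ?_⟩⟩
  obtain ⟨h1, h2, h3⟩ := hN n ((le_max_left _ _).trans hn) K hK A hA
  obtain ⟨-, h4, h5, -, -⟩ := hN' n ((le_max_right _ _).trans hn) K hK A hA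
  exact ⟨h2, h1, h3, h4, h5⟩

end Pool.Agent.Results.MP_9f6d45_nt.RootsOfUnitySharp
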